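import Mathlib

/-!
# The neighbours inequality for 2-bases of the Boolean cube

`F` is a family of subsets of `Fin N`, `f` a real function on sets.  For every set which is a
union of two members of `F` and not in `F` we distribute the weight `2` uniformly to the ordered
pairs of members of `F` with this union and with maximal sum of the values of `f`.  A member `a`
and a pair `(b, d)` which form a triangle of positive weight are such that `b ∪ d` avoids the
directions in which `f` rises at `a`.
-/

open Finset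

namespace Pool.Agent.Work.MP_2b8540_co.NB

/-! ### A weighted form of Goodman's inequality -/

section goodman

variable {α : Type*}

private lemma tri_ge {x y z : ℝ} (hx : 0 ≤ x) (hy : y ≤ 1) (hz : z ≤ 1) :
    x * y + x * z - x ≤ x * y * z := by
  have h1 : 0 ≤ (1 - y) * (1 - z) := mul_nonneg (by linarith) (by linarith)
  nlinarith [mul_nonneg hx h1]

theorem goodman (F : Finset α) (w : α → α → ℝ) (h0 : ∀ a ∈ F, ∀ b ∈ F, 0 ≤ w a b)
    (h1 : ∀ a ∈ F, ∀ b ∈ F, w a b ≤ 1) (hs : ∀ a b, w a b = w b a) (κ : α → ℝ) (K : ℝ)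
    (hK : ∀ a ∈ F, ∑ b ∈ F, ∑ d ∈ F, w a b * w a d * w b d ≤ K * κ a) :
    2 * (∑ a ∈ F, ∑ b ∈ F, w a b) ^ 2 ≤
      (F.card : ℝ) ^ 2 * (∑ a ∈ F, ∑ b ∈ F, w a b) + F.card * (K * ∑ a ∈ F, κ a) := by
  have e1 : ∑ a ∈ F, ∑ b ∈ F, ∑ d ∈ F, w a b * w a d = ∑ a ∈ F, (∑ b ∈ F, w a b) ^ 2 := by
    refine sum_congr rfl fun a _ => ?_
    rw [sq, sum_mul_sum]
  have e2 : ∑ a ∈ F, ∑ b ∈ F, ∑ d ∈ F, w a b * w b d = ∑ a ∈ F, (∑ b ∈ F, w a b) ^ 2 := by
    rw [sum_comm]
    refine sum_congr rfl fun b _ => ?_
    rw [sq, sum_mul_sum]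
    refine sum_congr rfl fun a _ => sum_congr rfl fun d _ => ?_
    rw [hs a b]
  have e3 : ∑ a ∈ F, ∑ b ∈ F, ∑ _d ∈ F, w a b = F.card * ∑ a ∈ F, ∑ b ∈ F, w a b := by
    rw [mul_sum]
    refine sum_congr rfl fun a _ => ?_
    rw [mul_sum]
    refine sum_congr rfl fun b _ => ?_
    rw [sum_const, nsmul_eq_mul]
  have h2 : ∑ a ∈ F, ∑ b ∈ F, ∑ d ∈ F, (w a b * w a d + w a b * w b d - w a b) ≤
      ∑ a ∈ F, ∑ b ∈ F, ∑ d ∈ F, w a b * w a d * w b d :=
    sum_le_sum fun a ha => sum_le_sum fun b hb => sum_le_sum fun d hd =>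
      tri_ge (h0 a ha b hb) (h1 a ha d hd) (h1 b hb d hd)
  have h3 : ∑ a ∈ F, ∑ b ∈ F, ∑ d ∈ F, w a b * w a d * w b d ≤ K * ∑ a ∈ F, κ a := by
    rw [mul_sum]
    exact sum_le_sum hK
  have h4 : ∑ a ∈ F, ∑ b ∈ F, ∑ d ∈ F, (w a b * w a d + w a b * w b d - w a b) =
      2 * (∑ a ∈ F, (∑ b ∈ F, w a b) ^ 2) - F.card * ∑ a ∈ F, ∑ b ∈ F, w a b := by
    simp only [sum_sub_distrib, sum_add_distrib]
    rw [e1, e2, e3]
    ring
  have h5 : (∑ a ∈ F, ∑ b ∈ F, w a b) ^ 2 ≤ (F.card : ℝ) * ∑ a ∈ F, (∑ b ∈ F, w a b) ^ 2 :=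
    sq_sum_le_card_mul_sum_sq
  have hm : (0 : ℝ) ≤ F.card := Nat.cast_nonneg _
  have h6 := mul_le_mul_of_nonneg_left (h4 ▸ h2.trans h3) hm
  nlinarith

end goodman

/-! ### A binomial sum -/

private lemma binom_sum (e : ℕ) :
    ∑ k ∈ range (e + 1), (e.choose k : ℝ) * (1 / (1 + (k : ℝ))) = (2 ^ (e + 1) - 1) / (e + 1) := by
  have h1 : ∀ k, (e.choose k : ℝ) * (1 / (1 + (k : ℝ))) =
      ((e + 1).choose (k + 1) : ℝ) / (e + 1) := by
    intro k
    have h := Nat.add_one_mul_choose_eq e k
    have h' : ((e : ℝ) + 1) * (e.choose k : ℝ) = ((e + 1).choose (k + 1) : ℝ) * (k + 1) := by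
      exact_mod_cast h
    have hk : (1 + (k : ℝ)) ≠ 0 := by positivity
    have he : ((e : ℝ) + 1) ≠ 0 := by positivity
    field_simp
    linarith
  simp only [h1]
  rw [← sum_div]
  congr 1
  have h2 := Nat.sum_range_choose (e + 1)
  rw [sum_range_succ'] at h2
  have h3 : (∑ k ∈ range (e + 1), ((e + 1).choose (k + 1) : ℝ)) + 1 = 2 ^ (e + 1) := by
    have : ((∑ k ∈ range (e + 1), (e + 1).choose (k + 1) + (e + 1).choose 0 : ℕ) : ℝ) =
        ((2 ^ (e + 1) : ℕ) : ℝ) := by rw [h2]
    push_cast at this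
    simpa using this
  linarith

section sets

variable {N : ℕ}

private lemma sum_split (A E : Finset (Fin N)) (hd : Disjoint A E) (g : ℕ → ℝ) :
    ∑ X ∈ (A ∪ E).powerset, g (E ∩ X).card =
      2 ^ A.card * ∑ k ∈ range (E.card + 1), (E.card.choose k : ℝ) * g k := by
  classical
  induction A using Finset.induction_on with
  | empty =>
    rw [empty_union, card_empty, pow_zero, one_mul]
    have h : ∑ m ∈ E.powerset, g m.card = ∑ m ∈ range (E.card + 1), E.card.choose m • g m :=
      sum_powerset_apply_card g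
    simp only [nsmul_eq_mul] at h
    rw [← h]
    refine sum_congr rfl fun X hX => ?_
    rw [inter_eq_right.2 (mem_powerset.1 hX)]
  | insert x A hx ih =>
    have hxE : x ∉ E := fun h => (disjoint_left.1 hd) (mem_insert_self x A) h
    have hxA : x ∉ A ∪ E := by
      rw [mem_union]
      tauto
    have hd' : Disjoint A E := hd.mono_left (subset_insert x A)
    rw [insert_union, sum_powerset_insert hxA, card_insert_of_notMem hx]
    have h1 : ∑ X ∈ (A ∪ E).powerset, g (E ∩ insert x X).card =
        ∑ X ∈ (A ∪ E).powerset, g (E ∩ X).card := by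
      refine sum_congr rfl fun X _ => ?_
      rw [inter_insert_of_notMem hxE]
    rw [h1, ih hd', pow_succ]
    ring

/-- the sum of `1 / (1 + |E ∩ X|)` over the sets `X` disjoint from `U` -/
private lemma sum_avoid (U E : Finset (Fin N)) (hd : Disjoint U E) :
    ∑ X : Finset (Fin N), (if Disjoint X U then 1 / (1 + ((E ∩ X).card : ℝ)) else 0) =
      2 ^ N * ((1 / 2) ^ U.card * ((2 - (1 / 2) ^ E.card) / (E.card + 1))) := by
  classical
  rw [← sum_filter]
  have h1 : (univ : Finset (Finset (Fin N))).filter (fun X => Disjoint X U) =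
      ((U ∪ E)ᶜ ∪ E).powerset := by
    ext X
    rw [mem_filter, mem_powerset]
    constructor
    · rintro ⟨-, h⟩ x hx
      have hxU : x ∉ U := fun h' => (disjoint_left.1 h) hx h'
      rw [mem_union, mem_compl, mem_union]
      tauto
    · intro h
      refine ⟨mem_univ _, disjoint_left.2 fun x hx hxU => ?_⟩
      have h2 := h hx
      rw [mem_union, mem_compl, mem_union] at h2
      rcases h2 with h2 | h2
      · exact h2 (Or.inl hxU)
      · exact (disjoint_left.1 hd) hxU h2
  rw [h1, sum_split _ _ _ (fun k => 1 / (1 + (k : ℝ))), binom_sum]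
  · have hc : (U ∪ E)ᶜ.card + (U.card + E.card) = N := by
      have := card_compl_add_card (U ∪ E)
      rw [card_union_of_disjoint hd, Fintype.card_fin] at this
      exact this
    have h2 : (2 : ℝ) ^ N = 2 ^ (U ∪ E)ᶜ.card * 2 ^ U.card * 2 ^ E.card := by
      rw [← pow_add, ← pow_add]
      congr 1
      omega
    rw [h2, one_div_pow, one_div_pow, pow_succ]
    have h3 : (2 : ℝ) ^ U.card ≠ 0 := by positivity
    have h4 : (2 : ℝ) ^ E.card ≠ 0 := by positivity
    have h5 : ((E.card : ℝ) + 1) ≠ 0 := by positivity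
    field_simp
  · exact disjoint_left.2 fun x hx hxE => (mem_compl.1 hx) (mem_union_right _ hxE)

end sets

/-! ### The weights -/

section weights

variable {N : ℕ}

/-- The sets which are unions of two (not necessarily distinct) members of `F`. -/
noncomputable def unions (F : Finset (Finset (Fin N))) : Finset (Finset (Fin N)) :=
  open Classical in
  (Finset.univ : Finset (Finset (Fin N))).filter fun S => ∃ a ∈ F, ∃ b ∈ F, a ∪ b = S

/-- The coordinates `i` such that `a` with `i` switched is in `F` and has a larger value. -/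
noncomputable def rising (F : Finset (Finset (Fin N))) (f : Finset (Fin N) → ℝ)
    (a : Finset (Fin N)) : Finset (Fin N) :=
  open Classical in
  (Finset.univ : Finset (Fin N)).filter fun i => symmDiff a {i} ∈ F ∧ f a < f (symmDiff a {i})

/-- The coordinates `i` such that `a` with `i` switched is in `F` and has the same value. -/
noncomputable def level (F : Finset (Finset (Fin N))) (f : Finset (Fin N) → ℝ)
    (a : Finset (Fin N)) : Finset (Fin N) :=
  open Classical in
  (Finset.univ : Finset (Fin N)).filter fun i => symmDiff a {i} ∈ F ∧ f (symmDiff a {i}) = f a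

/-- maximal representations of `X` -/
noncomputable def rep (F : Finset (Finset (Fin N))) (f : Finset (Fin N) → ℝ)
    (X : Finset (Fin N)) : Finset (Finset (Fin N) × Finset (Fin N)) :=
  open Classical in
  (F ×ˢ F).filter fun e => e.1 ∪ e.2 = X ∧
    ∀ a ∈ F, ∀ b ∈ F, a ∪ b = X → f a + f b ≤ f e.1 + f e.2

/-- the weight of a pair -/
noncomputable def wt (F : Finset (Finset (Fin N))) (f : Finset (Fin N) → ℝ)
    (a b : Finset (Fin N)) : ℝ :=
  open Classical in
  if (a, b) ∈ rep F f (a ∪ b) ∧ a ∪ b ∉ F then 2 / ((rep F f (a ∪ b)).card : ℝ) else 0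

variable {F : Finset (Finset (Fin N))} {f : Finset (Fin N) → ℝ}

private lemma mem_rep {X a b : Finset (Fin N)} :
    (a, b) ∈ rep F f X ↔ (a ∈ F ∧ b ∈ F) ∧ a ∪ b = X ∧
      ∀ a' ∈ F, ∀ b' ∈ F, a' ∪ b' = X → f a' + f b' ≤ f a + f b := by
  unfold rep
  rw [mem_filter, mem_product]

private lemma rep_swap {X a b : Finset (Fin N)} (h : (a, b) ∈ rep F f X) :
    (b, a) ∈ rep F f X := by
  rw [mem_rep] at h ⊢
  refine ⟨⟨h.1.2, h.1.1⟩, by rw [union_comm]; exact h.2.1, fun a' ha b' hb hu => ?_⟩
  have := h.2.2 a' ha b' hb hu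
  linarith

private lemma rep_nonempty {X : Finset (Fin N)} (h : X ∈ unions F) : (rep F f X).Nonempty := by
  classical
  unfold unions at h
  rw [mem_filter] at h
  obtain ⟨-, a, ha, b, hb, hab⟩ := h
  obtain ⟨e, he, hmax⟩ := exists_max_image ((F ×ˢ F).filter fun e => e.1 ∪ e.2 = X)
    (fun e => f e.1 + f e.2) ⟨(a, b), mem_filter.2 ⟨mem_product.2 ⟨ha, hb⟩, hab⟩⟩
  rw [mem_filter, mem_product] at he
  refine ⟨(e.1, e.2), mem_rep.2 ⟨he.1, he.2, fun a' ha' b' hb' hu => ?_⟩⟩
  exact hmax (a', b') (mem_filter.2 ⟨mem_product.2 ⟨ha', hb'⟩, hu⟩)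

private lemma wt_symm (a b : Finset (Fin N)) : wt F f a b = wt F f b a := by
  unfold wt
  rw [union_comm b a]
  by_cases h : (a, b) ∈ rep F f (a ∪ b) ∧ a ∪ b ∉ F
  · rw [if_pos h, if_pos ⟨rep_swap h.1, h.2⟩]
  · rw [if_neg h, if_neg]
    exact fun h' => h ⟨rep_swap h'.1, h'.2⟩

private lemma wt_nonneg (a b : Finset (Fin N)) : 0 ≤ wt F f a b := by
  unfold wt
  split_ifs
  · positivity
  · exact le_rfl

private lemma union_flip {a b : Finset (Fin N)} {i : Fin N} (hi : i ∈ b) :
    symmDiff a {i} ∪ b = a ∪ b := by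
  ext x
  rw [mem_union, mem_union, mem_symmDiff, mem_singleton]
  by_cases hx : x = i
  · subst hx
    tauto
  · tauto

/-- the weight of a pair `(a, b)` is `0` if `b` meets `rising a`, and at most
`1 / (1 + |level a ∩ b|)` -/
private lemma wt_le (a b : Finset (Fin N)) :
    wt F f a b ≤ if Disjoint b (rising F f a) then 1 / (1 + ((level F f a ∩ b).card : ℝ)) else 0 := by
  classical
  unfold wt
  by_cases h : (a, b) ∈ rep F f (a ∪ b) ∧ a ∪ b ∉ F
  · obtain ⟨h1, h2⟩ := h
    have h1' := mem_rep.1 h1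
    have hdis : Disjoint b (rising F f a) := by
      rw [disjoint_left]
      intro i hi hr
      unfold rising at hr
      rw [mem_filter] at hr
      have := h1'.2.2 (symmDiff a {i}) hr.2.1 b h1'.1.2 (union_flip hi)
      linarith [hr.2.2]
    rw [if_pos ⟨h1, h2⟩, if_pos hdis]
    -- many representations
    have hrep : ∀ i ∈ level F f a ∩ b, (symmDiff a {i}, b) ∈ rep F f (a ∪ b) := by
      intro i hi
      rw [mem_inter] at hi
      unfold level at hi
      rw [mem_filter] at hi
      rw [mem_rep]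
      refine ⟨⟨hi.1.2.1, h1'.1.2⟩, union_flip hi.2, fun a' ha' b' hb' hu => ?_⟩
      rw [hi.1.2.2]
      exact h1'.2.2 a' ha' b' hb' hu
    obtain ⟨A, hA⟩ : ∃ A : Finset (Finset (Fin N)),
        A = insert a ((level F f a ∩ b).image fun i => symmDiff a {i}) := ⟨_, rfl⟩
    have hAcard : A.card = 1 + (level F f a ∩ b).card := by
      rw [hA, card_insert_of_notMem, card_image_of_injective, add_comm]
      · intro i j hij
        have := symmDiff_right_injective a hij
        exact singleton_injective this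
      · intro hmem
        rw [mem_image] at hmem
        obtain ⟨i, -, hi⟩ := hmem
        have : ({i} : Finset (Fin N)) = ∅ := by
          have h5 : symmDiff a (symmDiff a {i}) = symmDiff a a := by rw [hi]
          rw [symmDiff_symmDiff_cancel_left, symmDiff_self] at h5
          exact h5
        exact (singleton_ne_empty i) this
    have hArep : ∀ x ∈ A, (x, b) ∈ rep F f (a ∪ b) := by
      intro x hx
      rw [hA, mem_insert, mem_image] at hx
      rcases hx with rfl | ⟨i, hi, rfl⟩
      · exact h1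
      · exact hrep i hi
    have hbA : b ∉ A := by
      intro hb
      have h5 := (mem_rep.1 (hArep b hb)).2.1
      rw [union_self] at h5
      exact h2 (h5 ▸ h1'.1.2)
    have hsub : (A ×ˢ ({b} : Finset (Finset (Fin N)))) ∪ (({b} : Finset (Finset (Fin N))) ×ˢ A) ⊆
        rep F f (a ∪ b) := by
      intro e he
      rw [mem_union, mem_product, mem_product, mem_singleton, mem_singleton] at he
      obtain ⟨x, y⟩ := e
      rcases he with ⟨hx, hy⟩ | ⟨hx, hy⟩
      · simp only at hx hy
        subst hy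
        exact hArep x hx
      · simp only at hx hy
        subst hx
        exact rep_swap (hArep y hy)
    have hdj : Disjoint (A ×ˢ ({b} : Finset (Finset (Fin N))))
        (({b} : Finset (Finset (Fin N))) ×ˢ A) := by
      rw [disjoint_left]
      rintro ⟨x, y⟩ he he'
      rw [mem_product, mem_singleton] at he he'
      exact hbA (he'.1 ▸ he.1)
    have hcard := card_le_card hsub
    rw [card_union_of_disjoint hdj, card_product, card_product, card_singleton, hAcard] at hcard
    have hcard' : 2 * (1 + ((level F f a ∩ b).card : ℝ)) ≤ ((rep F f (a ∪ b)).card : ℝ) := by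
      have : 2 * (1 + (level F f a ∩ b).card) ≤ (rep F f (a ∪ b)).card := by omega
      exact_mod_cast this
    have hpos : 0 < 1 + ((level F f a ∩ b).card : ℝ) := by positivity
    rw [div_le_div_iff₀ (by linarith) hpos]
    linarith
  · rw [if_neg h]
    split_ifs
    · positivity
    · exact le_rfl

private lemma wt_le_one (a b : Finset (Fin N)) : wt F f a b ≤ 1 := by
  refine (wt_le a b).trans ?_
  split_ifs
  · rw [div_le_one (by positivity)]
    have : (0 : ℝ) ≤ ((level F f a ∩ b).card : ℝ) := Nat.cast_nonneg _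
    linarith
  · norm_num

private lemma sub_unions : F ⊆ unions F := by
  intro a ha
  unfold unions
  rw [mem_filter]
  exact ⟨mem_univ _, a, ha, a, ha, union_self a⟩

/-- sums over pairs of functions of the union -/
private lemma sum_wt (ψ : Finset (Fin N) → ℝ) :
    ∑ a ∈ F, ∑ b ∈ F, wt F f a b * ψ (a ∪ b) = ∑ X ∈ unions F \ F, 2 * ψ X := by
  classical
  rw [← sum_product' (f := fun a b => wt F f a b * ψ (a ∪ b))]
  rw [← sum_fiberwise_of_maps_to (t := unions F) (g := fun e => e.1 ∪ e.2)]
  · have h1 : ∀ X ∈ unions F, ∑ e ∈ (F ×ˢ F).filter (fun e => e.1 ∪ e.2 = X),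
        wt F f e.1 e.2 * ψ (e.1 ∪ e.2) = if X ∉ F then 2 * ψ X else 0 := by
      intro X hX
      have h2 : ∀ e ∈ (F ×ˢ F).filter (fun e => e.1 ∪ e.2 = X),
          wt F f e.1 e.2 * ψ (e.1 ∪ e.2) =
            if e ∈ rep F f X then (if X ∉ F then 2 / ((rep F f X).card : ℝ) * ψ X else 0)
            else 0 := by
        intro e he
        have he2 := (mem_filter.1 he).2
        unfold wt
        rw [he2]
        by_cases h3 : e ∈ rep F f X
        · by_cases h4 : X ∉ F
          · rw [if_pos ⟨h3, h4⟩, if_pos h3, if_pos h4]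
          · rw [if_neg (fun h => h4 h.2), if_pos h3, if_neg h4, zero_mul]
        · rw [if_neg (fun h => h3 h.1), if_neg h3, zero_mul]
      rw [sum_congr rfl h2, ← sum_filter]
      have h5 : ((F ×ˢ F).filter (fun e => e.1 ∪ e.2 = X)).filter (fun e => e ∈ rep F f X) =
          rep F f X := by
        ext e
        rw [mem_filter, mem_filter]
        constructor
        · exact fun h => h.2
        · intro h
          have h' := mem_rep.1 (show (e.1, e.2) ∈ rep F f X from h)
          exact ⟨⟨mem_product.2 h'.1, h'.2.1⟩, h⟩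
      rw [h5, sum_const, nsmul_eq_mul]
      have h7 : ((rep F f X).card : ℝ) ≠ 0 := by
        have := card_pos.2 (rep_nonempty (f := f) hX)
        positivity
      split_ifs with h6
      · rw [mul_zero]
      · field_simp
    rw [sum_congr rfl h1, ← sum_filter]
    refine sum_congr ?_ fun _ _ => rfl
    ext X
    rw [mem_filter, mem_sdiff]
  · intro e he
    rw [mem_product] at he
    unfold unions
    rw [mem_filter]
    exact ⟨mem_univ _, e.1, he.1, e.2, he.2, rfl⟩

private lemma rise_level (a : Finset (Fin N)) : Disjoint (rising F f a) (level F f a) := by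
  rw [disjoint_left]
  intro i h1 h2
  unfold rising at h1
  unfold level at h2
  rw [mem_filter] at h1 h2
  linarith [h1.2.2, h2.2.2]

/-- the triangles at `a` -/
private lemma tri_at (a : Finset (Fin N)) :
    ∑ b ∈ F, ∑ d ∈ F, wt F f a b * wt F f a d * wt F f b d ≤
      2 * 2 ^ N * ((1 / 2) ^ (rising F f a).card *
        ((2 - (1 / 2) ^ (level F f a).card) / ((level F f a).card + 1))) := by
  classical
  obtain ⟨ψ, hψ⟩ : ∃ ψ : Finset (Fin N) → ℝ, ψ = fun X =>
      if Disjoint X (rising F f a) then 1 / (1 + ((level F f a ∩ X).card : ℝ)) else 0 := ⟨_, rfl⟩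
  have hψ0 : ∀ X, 0 ≤ ψ X := by
    intro X
    rw [hψ]
    dsimp only
    split_ifs
    · positivity
    · exact le_rfl
  have h1 : ∀ b ∈ F, ∀ d ∈ F, wt F f a b * wt F f a d * wt F f b d ≤
      wt F f b d * ψ (b ∪ d) := by
    intro b _ d _
    rw [mul_comm (wt F f a b * wt F f a d)]
    refine mul_le_mul_of_nonneg_left ?_ (wt_nonneg b d)
    have hb := wt_le (F := F) (f := f) a b
    have hd := wt_le (F := F) (f := f) a d
    rw [hψ]
    dsimp only
    by_cases c1 : Disjoint b (rising F f a)
    · by_cases c2 : Disjoint d (rising F f a)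
      · rw [if_pos c1] at hb
        rw [if_pos c2] at hd
        rw [if_pos (disjoint_union_left.2 ⟨c1, c2⟩)]
        have hx : (0 : ℝ) ≤ ((level F f a ∩ b).card : ℝ) := Nat.cast_nonneg _
        have hy : (0 : ℝ) ≤ ((level F f a ∩ d).card : ℝ) := Nat.cast_nonneg _
        have hz : ((level F f a ∩ (b ∪ d)).card : ℝ) ≤
            ((level F f a ∩ b).card : ℝ) + ((level F f a ∩ d).card : ℝ) := by
          rw [inter_union_distrib_left]
          exact_mod_cast card_union_le _ _
        refine (mul_le_mul hb hd (wt_nonneg a d) (by positivity)).trans ?_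
        rw [div_mul_div_comm, one_mul]
        refine one_div_le_one_div_of_le (by positivity) ?_
        nlinarith [mul_nonneg hx hy]
      · rw [if_neg c2] at hd
        have : wt F f a d = 0 := le_antisymm hd (wt_nonneg a d)
        rw [this, mul_zero]
        split_ifs
        · positivity
        · exact le_rfl
    · rw [if_neg c1] at hb
      have : wt F f a b = 0 := le_antisymm hb (wt_nonneg a b)
      rw [this, zero_mul]
      split_ifs
      · positivity
      · exact le_rfl
  refine (sum_le_sum fun b hb => sum_le_sum fun d hd => h1 b hb d hd).trans ?_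
  rw [sum_wt]
  have h2 : ∑ X ∈ unions F \ F, 2 * ψ X ≤ ∑ X : Finset (Fin N), 2 * ψ X :=
    sum_le_sum_of_subset_of_nonneg (subset_univ _) fun X _ _ => by
      have := hψ0 X
      positivity
  refine h2.trans (le_of_eq ?_)
  rw [← mul_sum, hψ, sum_avoid _ _ (rise_level a)]
  ring

/-- **The neighbours inequality.** -/
theorem neighbours (F : Finset (Finset (Fin N))) (f : Finset (Fin N) → ℝ) :
    4 * (((unions F).card : ℝ) - F.card) ^ 2 ≤ 2 ^ N * F.card * ∑ a ∈ F,
      (1 + (1 / 2 : ℝ) ^ (rising F f a).card *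
        ((2 - (1 / 2 : ℝ) ^ (level F f a).card) / ((level F f a).card + 1))) := by
  classical
  have h1 := goodman F (wt F f) (fun a _ b _ => wt_nonneg a b) (fun a _ b _ => wt_le_one a b)
    wt_symm (fun a => (1 / 2) ^ (rising F f a).card *
        ((2 - (1 / 2) ^ (level F f a).card) / ((level F f a).card + 1))) (2 * 2 ^ N)
    (fun a _ => tri_at a)
  have h2 : ∑ a ∈ F, ∑ b ∈ F, wt F f a b = 2 * (((unions F).card : ℝ) - F.card) := by
    have h3 := sum_wt (F := F) (f := f) fun _ => 1
    simp only [mul_one] at h3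
    rw [h3, sum_const, nsmul_eq_mul, card_sdiff_of_subset sub_unions,
      Nat.cast_sub (card_le_card sub_unions)]
    ring
  rw [h2] at h1
  have h4 : ((unions F).card : ℝ) - F.card ≤ 2 ^ N := by
    have h5 : (unions F).card ≤ 2 ^ N := by
      have := card_le_univ (unions F)
      rwa [Fintype.card_finset, Fintype.card_fin] at this
    have h6 : ((unions F).card : ℝ) ≤ 2 ^ N := by exact_mod_cast h5
    have h7 : (0 : ℝ) ≤ F.card := Nat.cast_nonneg _
    linarith
  have hm : (0 : ℝ) ≤ (F.card : ℝ) ^ 2 := by positivity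
  have h8 := mul_le_mul_of_nonneg_left h4 hm
  have h9 : ∑ a ∈ F, (1 + (1 / 2 : ℝ) ^ (rising F f a).card *
        ((2 - (1 / 2) ^ (level F f a).card) / ((level F f a).card + 1))) =
      F.card + ∑ a ∈ F, ((1 / 2 : ℝ) ^ (rising F f a).card *
        ((2 - (1 / 2) ^ (level F f a).card) / ((level F f a).card + 1))) := by
    rw [sum_add_distrib, sum_const, nsmul_eq_mul, mul_one]
  rw [h9]
  nlinarith

end weights

end Pool.Agent.Work.MP_2b8540_co.NB
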